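import Pool.Agent.Y458.US.Gen

set_option autoImplicit false

/-!
# Unique subgraphs: the weights of the permutations
-/

namespace Pool.Agent.Y458.US

open Finset Filter Topology
open Pool.Agent.Results.MP_618f8d_co.AlmostAllUnique

lemma D_eq (n m : ℕ) (hn : 2000 ≤ n) (hm : m ≤ n) :
    (((n-m).choose 2 + m : ℕ) : ℝ)/(n.choose 2 : ℕ)
      = (((n:ℝ)-m)*((n:ℝ)-m-1) + 2*m)/((n:ℝ)*(n-1)) := by
  have hn' : (2000:ℝ) ≤ n := by exact_mod_cast hn
  rw [choose_two_real n]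
  push_cast [Nat.cast_choose_two, Nat.cast_sub hm]
  have h1 : (n:ℝ) ≠ 0 := by linarith
  have h2 : (n:ℝ) - 1 ≠ 0 := by linarith
  field_simp

/-- the factor of the overlaps -/
lemma ovl (n m t : ℕ) (hn : 2000 ≤ n) :
    (1 + 7*((t : ℝ)/(n.choose 2 : ℕ))^2)^(m*n) ≤ Real.exp (29 * (t:ℝ)^2 * m / (n:ℝ)^3) := by
  have hn' : (2000:ℝ) ≤ n := by exact_mod_cast hn
  have hq2 : 7*((t : ℝ)/(n.choose 2 : ℕ))^2 ≤ 29 * (t:ℝ)^2 / (n:ℝ)^4 := by
    have hN0 : (0:ℝ) < (n:ℝ) * (n-1)/2 := by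
      have := mul_pos (by linarith : (0:ℝ) < n) (by linarith : (0:ℝ) < (n:ℝ) - 1)
      linarith
    rw [choose_two_real n, div_pow, ← mul_div_assoc,
      div_le_div_iff₀ (pow_pos hN0 2) (by positivity)]
    have h1 : 28 * (n:ℝ)^2 ≤ 29 * ((n:ℝ)-1)^2 := by nlinarith
    have h2 : 0 ≤ (t:ℝ)^2 * (n:ℝ)^2 := by positivity
    have h3 := mul_le_mul_of_nonneg_left h1 h2
    have e1 : 7 * (t:ℝ)^2 * (n:ℝ)^4 = ((t:ℝ)^2 * (n:ℝ)^2 * (28 * (n:ℝ)^2))/4 := by ring
    have e2 : 29 * (t:ℝ)^2 * ((n:ℝ) * (n-1)/2)^2 = ((t:ℝ)^2 * (n:ℝ)^2 * (29 * ((n:ℝ)-1)^2))/4 := by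
      ring
    rw [e1, e2]
    linarith
  have h1 : 1 + 7*((t : ℝ)/(n.choose 2 : ℕ))^2 ≤ Real.exp (29 * (t:ℝ)^2 / (n:ℝ)^4) := by
    have := Real.add_one_le_exp (29 * (t:ℝ)^2 / (n:ℝ)^4)
    linarith
  calc (1 + 7*((t : ℝ)/(n.choose 2 : ℕ))^2)^(m*n)
      ≤ (Real.exp (29 * (t:ℝ)^2 / (n:ℝ)^4))^(m*n) := by gcongr
    _ = Real.exp (29 * (t:ℝ)^2 * m / (n:ℝ)^3) := by
        rw [← Real.exp_nat_mul]; congr 1; push_cast; field_simp

lemma log_fact_ge (n : ℕ) (hn : 1 ≤ n) : (n:ℝ) * Real.log n - n ≤ Real.log (n.factorial) := by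
  have h := inv_factorial_le n hn
  have hf : (0:ℝ) < n.factorial := by exact_mod_cast n.factorial_pos
  have h2 := Real.log_le_log (by positivity) h
  rw [Real.log_exp, one_div, Real.log_inv] at h2
  linarith

lemma log_fact_le (n : ℕ) : Real.log (n.factorial) ≤ n * Real.log n := by
  rcases Nat.eq_zero_or_pos n with rfl | hn
  · simp
  have hf : (0:ℝ) < n.factorial := by exact_mod_cast n.factorial_pos
  have h : (n.factorial : ℝ) ≤ (n:ℝ)^n := by exact_mod_cast n.factorial_le_pow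
  have h2 := Real.log_le_log hf h
  rwa [Real.log_pow] at h2

/-- few moved points -/
lemma term_small (n m t : ℕ) (hn : 2000 ≤ n) (hm : 2 * m ≤ n) (hL : 70 ≤ Real.log n)
    (ht : 1.44 * n * (Real.log n - 1) ≤ t) (ht2 : (t:ℝ) ≤ (n:ℝ)^2/1000) :
    (n.descFactorial m : ℝ) * wtg n m t ≤ Real.exp (-(0.02 * Real.log n)) ^ m := by
  have hn' : (2000:ℝ) ≤ n := by exact_mod_cast hn
  have hn0 : (0:ℝ) < n := by linarith
  have hm' : 2 * (m:ℝ) ≤ n := by exact_mod_cast hm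
  have hm0 : (0:ℝ) ≤ m := Nat.cast_nonneg m
  have ht0 : (0:ℝ) ≤ t := Nat.cast_nonneg t
  set L := Real.log n with hLdef
  have h1 : (n.descFactorial m : ℝ) ≤ Real.exp (m * L) := by
    have : (n.descFactorial m : ℝ) ≤ (n:ℝ)^m := by exact_mod_cast Nat.descFactorial_le_pow n m
    refine this.trans (le_of_eq ?_)
    rw [Real.exp_nat_mul, hLdef, Real.exp_log hn0]
  have h2 : ((1 + (((n-m).choose 2 + m : ℕ) : ℝ)/(n.choose 2 : ℕ))/2)^t
      ≤ Real.exp (-(0.749 * m / n * t)) := by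
    have hb : (1 + (((n-m).choose 2 + m : ℕ) : ℝ)/(n.choose 2 : ℕ))/2 ≤ 1 - 0.749 * m / n := by
      rw [D_eq n m hn (by omega)]
      have hD : (((n:ℝ)-m)*((n:ℝ)-m-1) + 2*m)/((n:ℝ)*(n-1)) ≤ 1 - 1.498 * m / n := by
        rw [div_le_iff₀ (by nlinarith)]
        have e : (1 - 1.498 * m / n) * ((n:ℝ) * (n-1)) = (n:ℝ)*(n-1) - 1.498 * m * (n-1) := by
          field_simp
        rw [e]
        nlinarith [mul_nonneg hm0 (by linarith : (0:ℝ) ≤ n - 2 * m),
          mul_nonneg hm0 (by linarith : (0:ℝ) ≤ (n:ℝ) - 2000)]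
      have e2 : 1 - 0.749 * (m:ℝ) / n = (1 + (1 - 1.498 * m / n))/2 := by ring
      rw [e2]
      linarith
    have hb0 : 0 ≤ (1 + (((n-m).choose 2 + m : ℕ) : ℝ)/(n.choose 2 : ℕ))/2 := by positivity
    have hb2 : (1 + (((n-m).choose 2 + m : ℕ) : ℝ)/(n.choose 2 : ℕ))/2
        ≤ Real.exp (-(0.749 * m / n)) := by
      have := Real.add_one_le_exp (-(0.749 * (m:ℝ) / n))
      linarith
    calc _ ≤ (Real.exp (-(0.749 * m / n)))^t := by gcongr
      _ = _ := by rw [← Real.exp_nat_mul]; congr 1; ring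
  have h3 := ovl n m t hn
  have hw : wtg n m t ≤ Real.exp (-(0.749 * m / n * t)) * Real.exp (29 * (t:ℝ)^2 * m / (n:ℝ)^3) := by
    unfold wtg
    exact mul_le_mul h2 h3 (by positivity) (by positivity)
  calc (n.descFactorial m : ℝ) * wtg n m t
      ≤ Real.exp (m * L) *
        (Real.exp (-(0.749 * m / n * t)) * Real.exp (29 * (t:ℝ)^2 * m / (n:ℝ)^3)) :=
        mul_le_mul h1 hw (by unfold wtg; positivity) (by positivity)
    _ = Real.exp (m * (L - (t / n) * (0.749 - 29 * t / (n:ℝ)^2))) := by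
        rw [← Real.exp_add, ← Real.exp_add]; congr 1; field_simp; ring
    _ ≤ Real.exp (m * (-(0.02 * L))) := by
        apply Real.exp_le_exp.mpr
        apply mul_le_mul_of_nonneg_left _ hm0
        have ha : 0.72 ≤ 0.749 - 29 * (t:ℝ) / (n:ℝ)^2 := by
          have : 29 * (t:ℝ) / (n:ℝ)^2 ≤ 0.029 := by
            rw [div_le_iff₀ (by positivity)]
            linarith
          linarith
        have hb : 1.44 * (L - 1) ≤ (t:ℝ) / n := by
          rw [le_div_iff₀ hn0]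
          linarith
        have hc : 1.44 * (L - 1) * 0.72 ≤ (t / n) * (0.749 - 29 * (t:ℝ) / (n:ℝ)^2) := by
          apply mul_le_mul hb ha (by norm_num)
          positivity
        linarith
    _ = Real.exp (-(0.02 * L)) ^ m := by rw [← Real.exp_nat_mul]

/-- `k log n / n` against `log k` -/
lemma klog (n k : ℕ) (hk : 1 ≤ k) (hkn : 2 * k ≤ n) :
    (k:ℝ) * Real.log n / n ≤ (1 + Real.log 2 + Real.log k) / 2 := by
  have hk' : (1:ℝ) ≤ k := by exact_mod_cast hk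
  have hkn' : 2 * (k:ℝ) ≤ n := by exact_mod_cast hkn
  have hn0 : (0:ℝ) < n := by linarith
  have hk0 : (0:ℝ) < k := by linarith
  have h1 : Real.log n = Real.log (n / (2 * k)) + Real.log (2 * k) := by
    rw [← Real.log_mul (by positivity) (by positivity)]
    congr 1
    field_simp
  have h2 : Real.log ((n:ℝ) / (2 * k)) ≤ n / (2 * k) := by
    have := Real.log_le_sub_one_of_pos (show (0:ℝ) < (n:ℝ) / (2 * k) by positivity)
    linarith
  have h3 : Real.log (2 * (k:ℝ)) = Real.log 2 + Real.log k :=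
    Real.log_mul (by norm_num) hk0.ne'
  have h4 : 0 ≤ Real.log 2 + Real.log (k:ℝ) :=
    add_nonneg (Real.log_nonneg (by norm_num)) (Real.log_nonneg hk')
  rw [div_le_iff₀ hn0, h1, h3]
  have h5 : (k:ℝ) * Real.log ((n:ℝ) / (2 * k)) ≤ n / 2 := by
    calc (k:ℝ) * Real.log ((n:ℝ) / (2 * k)) ≤ k * (n / (2 * k)) := by gcongr
      _ = n / 2 := by field_simp
  have h6 : (k:ℝ) * (Real.log 2 + Real.log k) ≤ n / 2 * (Real.log 2 + Real.log k) := by
    apply mul_le_mul_of_nonneg_right _ h4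
    linarith
  have e : (1 + Real.log 2 + Real.log (k:ℝ)) / 2 * n = n / 2 + n / 2 * (Real.log 2 + Real.log k) := by
    ring
  rw [e, mul_add]
  linarith

lemma aD26 (n k m : ℝ) (hn : 2000 ≤ n) (hk : 0 ≤ k) (hkn : 2*k ≤ n) (hmn : m ≤ n) :
    k*(k-1) + 2*m ≤ 0.26 * (n*(n-1)) := by
  have h1 : k * k ≤ (n/2) * (n/2) := mul_le_mul (by linarith) (by linarith) hk (by linarith)
  have h2 : 2000 * n ≤ n * n := mul_le_mul_of_nonneg_right hn (by linarith)
  nlinarith

lemma aDn (n k : ℝ) (hn : 2000 ≤ n) (hk : 0 ≤ k) (hkn : k ≤ n) : k*(k-1)/(n-1) ≤ k^2/n := by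
  rw [div_le_div_iff₀ (by linarith) (by linarith)]
  have h1 : 0 ≤ k * (n - k) := mul_nonneg hk (by linarith)
  have e : k^2 * (n-1) - k*(k-1)*n = k * (n - k) := by ring
  linarith

lemma a4 (n L lf l2 : ℝ) (hl2g : 0.6931 < l2) (hlf : lf ≤ n*L) (hnL : 0 ≤ n*L) :
    lf / l2 ≤ 1.4429 * (n * L) := by
  rw [div_le_iff₀ (by linarith)]
  have h : (1:ℝ) ≤ 1.4429 * l2 := by linarith
  have := mul_le_mul_of_nonneg_left h hnL
  linarith

lemma a_mono (n l2 D t t0 : ℝ) (hn : 2000 ≤ n) (hl2g : 0.6931 < l2) (hD : D ≤ 0.26)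
    (h0 : t0 ≤ t) (ht : t ≤ n^2/1000) :
    (l2 - D) * t0 - 29 * t0^2 / n^2 ≤ (l2 - D) * t - 29 * t^2 / n^2 := by
  have hn2 : 0 < n^2 := by positivity
  have h4 : 29 * t^2 / n^2 - 29 * t0^2 / n^2 = (t - t0) * (29 * (t + t0) / n^2) := by
    field_simp
    ring
  have h5 : 29 * (t + t0) / n^2 ≤ 0.06 := by
    rw [div_le_iff₀ hn2]
    linarith
  have h6 : (t - t0) * (29 * (t + t0) / n^2) ≤ (t - t0) * 0.06 :=
    mul_le_mul_of_nonneg_left h5 (by linarith)
  have h7 : (t - t0) * 0.06 ≤ (t - t0) * (l2 - D) :=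
    mul_le_mul_of_nonneg_left (by linarith) (by linarith)
  have h8 : (t - t0) * (l2 - D) = (l2 - D) * t - (l2 - D) * t0 := by ring
  linarith

lemma a_sq (n L t0 : ℝ) (hn : 2000 ≤ n) (h0 : 0 ≤ t0) (h : t0 ≤ 2 * n * L) :
    29 * t0^2 / n^2 ≤ 116 * L^2 := by
  have hn2 : 0 < n^2 := by positivity
  rw [div_le_iff₀ hn2]
  have h4 : t0^2 ≤ (2 * n * L)^2 := pow_le_pow_left₀ h0 h 2
  have e : (2 * n * L)^2 = 4 * (L^2 * n^2) := by ring
  rw [e] at h4
  linarith

lemma a_D (n L lf l2 D K : ℝ) (hL : 0 ≤ L) (hD0 : 0 ≤ D) (hDn : D * n ≤ K + 2.01)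
    (h : lf / l2 ≤ 1.4429 * (n * L)) : D * (lf / l2) ≤ 1.4429 * (L * K) + 3 * L := by
  calc D * (lf / l2) ≤ D * (1.4429 * (n * L)) := mul_le_mul_of_nonneg_left h hD0
    _ = 1.4429 * L * (D * n) := by ring
    _ ≤ 1.4429 * L * (K + 2.01) := mul_le_mul_of_nonneg_left hDn (by linarith)
    _ = 1.4429 * (L * K) + 2.900229 * L := by ring
    _ ≤ _ := by linarith

lemma core (n L lf l2 D t K lk E : ℝ) (hn : 2000 ≤ n) (hL : 70 ≤ L) (hl2g : 0.6931 < l2)
    (hlf0 : 0 ≤ lf) (hlf : lf ≤ n * L) (hD0 : 0 ≤ D) (hD26 : D ≤ 0.26)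
    (hDn : D * n ≤ K + 2.01) (hL2 : 300 * L^2 ≤ 0.5 * n * L)
    (ht : lf / l2 + 300 * L^2 ≤ t) (ht2 : t ≤ n^2/1000)
    (hk : 1.4429 * (L * K) - lk ≤ 0.28 * E) (hE : E ≤ L) :
    lf - lk - ((l2 - D) * t - 29 * t^2 / n^2) ≤ -(2 * L) := by
  have hnL : 0 ≤ n * L := mul_nonneg (by linarith) (by linarith)
  have h4 := a4 n L lf l2 hl2g hlf hnL
  have hq : 0 ≤ lf / l2 := div_nonneg hlf0 (by linarith)
  have hLsq : 0 ≤ L^2 := sq_nonneg L
  have h5 := a_mono n l2 D t (lf / l2 + 300 * L^2) hn hl2g hD26 ht ht2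
  have h6 := a_sq n L (lf / l2 + 300 * L^2) hn (by linarith) (by linarith)
  have h7 := a_D n L lf l2 D K (by linarith) hD0 hDn h4
  have h8 : (l2 - D) * (lf / l2 + 300 * L^2) = lf - D * (lf / l2) + 300 * ((l2 - D) * L^2) := by
    have : l2 ≠ 0 := by linarith
    field_simp
  have h9 : 0.4331 * L^2 ≤ (l2 - D) * L^2 := mul_le_mul_of_nonneg_right (by linarith) hLsq
  have h10 : 70 * L ≤ L^2 := by
    rw [sq]; exact mul_le_mul_of_nonneg_right hL (by linarith)
  rw [h8] at h5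
  linarith

lemma a_k (k : ℕ) (n : ℕ) (L : ℝ) (hL : L = Real.log n) (hkn : 2 * k ≤ n) :
    1.4429 * (L * ((k:ℝ)^2/n)) - Real.log (k.factorial) ≤ 0.28 * Real.exp 7 := by
  have h10 := Real.exp_pos 7
  rcases Nat.eq_zero_or_pos k with hk1 | hk1
  · rw [hk1]
    simp only [CharP.cast_eq_zero, ne_eq, OfNat.ofNat_ne_zero, not_false_eq_true, zero_pow,
      zero_div, mul_zero, Nat.factorial_zero, Nat.cast_one, Real.log_one, sub_zero]
    positivity
  · have hk1' : (1:ℝ) ≤ k := by exact_mod_cast hk1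
    have hk0 : (0:ℝ) ≤ k := by linarith
    have h4 := klog n k hk1 hkn
    rw [← hL] at h4
    have h5 := log_fact_ge k hk1
    have h6 : L * ((k:ℝ)^2/n) = k * (k * L / n) := by ring
    have h7 : (k:ℝ) * (k * L / n) ≤ k * ((1 + Real.log 2 + Real.log k) / 2) :=
      mul_le_mul_of_nonneg_left h4 hk0
    have h8 := xlog_le 8 k (by linarith)
    have e : (8:ℝ) - 1 = 7 := by norm_num
    rw [e] at h8
    have hl2 : Real.log 2 ≤ (0.69315:ℝ) := by have := Real.log_two_lt_d9; linarith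
    have h9 : (k:ℝ) * Real.log 2 ≤ k * 0.69315 := mul_le_mul_of_nonneg_left hl2 hk0
    have e7 : (k:ℝ) * ((1 + Real.log 2 + Real.log k) / 2)
        = (k + k * Real.log 2 + k * Real.log k) / 2 := by ring
    have e8 : (k:ℝ) * (8 - Real.log k) = 8 * k - k * Real.log k := by ring
    rw [h6]
    rw [e7] at h7
    rw [e8] at h8
    linarith

/-- the second factor -/
lemma ovl2 (n m t : ℕ) (hn : 2000 ≤ n) (hmn : m ≤ n) :
    (1 + 7*((t : ℝ)/(n.choose 2 : ℕ))^2)^(m*n) ≤ Real.exp (29 * (t:ℝ)^2 / (n:ℝ)^2) := by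
  have hn' : (2000:ℝ) ≤ n := by exact_mod_cast hn
  have hmn' : (m:ℝ) ≤ n := by exact_mod_cast hmn
  refine (ovl n m t hn).trans (Real.exp_le_exp.mpr ?_)
  rw [div_le_div_iff₀ (by positivity) (by positivity)]
  have h4 : 0 ≤ 29 * (t:ℝ)^2 * (n:ℝ)^2 := by positivity
  have h5 := mul_le_mul_of_nonneg_left hmn' h4
  have e1 : 29 * (t:ℝ)^2 * m * (n:ℝ)^2 = 29 * (t:ℝ)^2 * (n:ℝ)^2 * m := by ring
  have e2 : 29 * (t:ℝ)^2 * (n:ℝ)^3 = 29 * (t:ℝ)^2 * (n:ℝ)^2 * n := by ring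
  rw [e1, e2]
  exact h5

/-- many moved points -/
lemma term_large (n m t : ℕ) (hn : 2000 ≤ n) (hm : n < 2 * m) (hmn : m ≤ n)
    (hL : 70 ≤ Real.log n) (hLe : Real.exp 7 ≤ Real.log n)
    (hL2 : 300 * (Real.log n)^2 ≤ 0.5 * n * Real.log n)
    (ht : Real.log (n.factorial) / Real.log 2 + 300 * (Real.log n)^2 ≤ t)
    (ht2 : (t:ℝ) ≤ (n:ℝ)^2/1000) :
    (n.descFactorial m : ℝ) * wtg n m t ≤ Real.exp (-(2 * Real.log n)) := by
  have hn' : (2000:ℝ) ≤ n := by exact_mod_cast hn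
  have hn0 : (0:ℝ) < n := by linarith
  have hmn' : (m:ℝ) ≤ n := by exact_mod_cast hmn
  have hm0 : (0:ℝ) ≤ m := Nat.cast_nonneg m
  have hl2g : (0.6931:ℝ) < Real.log 2 := by have := Real.log_two_gt_d9; linarith
  obtain ⟨k, hk⟩ : ∃ k, n = m + k := ⟨n - m, by omega⟩
  have hkr : (n:ℝ) = m + k := by exact_mod_cast hk
  have hk0 : (0:ℝ) ≤ k := Nat.cast_nonneg k
  have hkn : 2 * k ≤ n := by omega
  have hkn' : 2 * (k:ℝ) ≤ n := by exact_mod_cast hkn
  -- the number of permutations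
  have h1 : (n.descFactorial m : ℝ)
      = Real.exp (Real.log (n.factorial) - Real.log (k.factorial)) := by
    have hfn : (0:ℝ) < n.factorial := by exact_mod_cast n.factorial_pos
    have hfk : (0:ℝ) < k.factorial := by exact_mod_cast k.factorial_pos
    rw [Real.exp_sub, Real.exp_log hfn, Real.exp_log hfk, eq_div_iff hfk.ne']
    have h := Nat.factorial_mul_descFactorial hmn
    have e : n - m = k := by omega
    rw [e] at h
    rw [mul_comm]
    exact_mod_cast h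
  -- the density of the fixed pairs
  set D : ℝ := (((n-m).choose 2 + m : ℕ) : ℝ)/(n.choose 2 : ℕ) with hD
  have hDe : D = ((k:ℝ)*(k-1) + 2*m)/((n:ℝ)*(n-1)) := by
    rw [hD, D_eq n m hn hmn]
    have e : (n:ℝ) - m = k := by linarith
    rw [e]
  have hn1 : (0:ℝ) < n - 1 := by linarith
  have hD0 : 0 ≤ D := by rw [hD]; positivity
  have hD26 : D ≤ 0.26 := by
    rw [hDe, div_le_iff₀ (by positivity)]
    exact aD26 n k m hn' hk0 hkn' hmn'
  have hDn : D * n ≤ (k:ℝ)^2/n + 2.01 := by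
    have e : D * n = (k:ℝ)*(k-1)/(n-1) + 2*m/(n-1) := by
      rw [hDe]; field_simp
    have h2 := aDn n k hn' hk0 (by linarith)
    have h3 : 2*(m:ℝ)/(n-1) ≤ 2.01 := by
      rw [div_le_iff₀ hn1]; linarith
    linarith
  -- the first factor
  have h2 : ((1 + D)/2)^t ≤ Real.exp (-((Real.log 2 - D) * t)) := by
    have hb : (1 + D)/2 ≤ Real.exp (-(Real.log 2 - D)) := by
      rw [neg_sub, Real.exp_sub, Real.exp_log (by norm_num)]
      have := Real.add_one_le_exp D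
      linarith
    calc ((1 + D)/2)^t ≤ (Real.exp (-(Real.log 2 - D)))^t := by gcongr
      _ = _ := by rw [← Real.exp_nat_mul]; congr 1; ring
  have h3 := ovl2 n m t hn hmn
  have hw : wtg n m t ≤ Real.exp (-((Real.log 2 - D) * t)) * Real.exp (29 * (t:ℝ)^2 / (n:ℝ)^2) := by
    unfold wtg
    exact mul_le_mul h2 h3 (by positivity) (by positivity)
  have hcore := core n (Real.log n) (Real.log (n.factorial)) (Real.log 2) D t ((k:ℝ)^2/n)
    (Real.log (k.factorial)) (Real.exp 7) hn' hL hl2g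
    (Real.log_nonneg (by exact_mod_cast n.factorial_pos)) (log_fact_le n) hD0 hD26 hDn hL2 ht ht2
    (a_k k n _ rfl hkn) hLe
  calc (n.descFactorial m : ℝ) * wtg n m t
      ≤ Real.exp (Real.log (n.factorial) - Real.log (k.factorial)) *
        (Real.exp (-((Real.log 2 - D) * t)) * Real.exp (29 * (t:ℝ)^2 / (n:ℝ)^2)) := by
        rw [h1]
        exact mul_le_mul_of_nonneg_left hw (Real.exp_pos _).le
    _ = Real.exp (Real.log (n.factorial) - Real.log (k.factorial)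
          - ((Real.log 2 - D) * t - 29 * (t:ℝ)^2 / (n:ℝ)^2)) := by
        rw [← Real.exp_add, ← Real.exp_add]; congr 1; ring
    _ ≤ Real.exp (-(2 * Real.log n)) := Real.exp_le_exp.mpr hcore

/-- The comparison function. -/
noncomputable def cmp (n : ℕ) : ℝ :=
  (Real.exp (-(0.02 * Real.log (n:ℝ))))^2 * (1 - Real.exp (-(0.02 * Real.log (n:ℝ))))⁻¹
      + (n:ℝ) * Real.exp (-(2 * Real.log n))

lemma cmp_tendsto : Tendsto cmp atTop (𝓝 0) := by
  have hlog : Tendsto (fun n : ℕ => Real.log (n:ℝ)) atTop atTop :=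
    Real.tendsto_log_atTop.comp tendsto_natCast_atTop_atTop
  have hr : Tendsto (fun n : ℕ => Real.exp (-(0.02 * Real.log (n:ℝ)))) atTop (𝓝 0) := by
    apply Real.tendsto_exp_neg_atTop_nhds_zero.comp
    exact hlog.const_mul_atTop (by norm_num)
  have hne : Tendsto (fun n : ℕ => (n:ℝ) * Real.exp (-(2 * Real.log (n:ℝ)))) atTop (𝓝 0) := by
    have h := tendsto_inv_atTop_zero.comp (tendsto_natCast_atTop_atTop (R := ℝ))
    refine h.congr' ?_
    filter_upwards [eventually_ge_atTop 1] with n hn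
    have hn0 : (0:ℝ) < n := by exact_mod_cast hn
    have e : Real.exp (-(2 * Real.log (n:ℝ))) = ((n:ℝ)^2)⁻¹ := by
      rw [Real.exp_neg, two_mul, Real.exp_add, Real.exp_log hn0, sq]
    rw [e]
    simp only [Function.comp_apply]
    field_simp
  have h1 := (hr.pow 2).mul ((tendsto_const_nhds (x := (1:ℝ)).sub hr).inv₀ (by norm_num))
  have h2 := h1.add hne
  unfold cmp
  simpa using h2

/-- The sum of all weights. -/
lemma sum_le_cmp : ∀ᶠ n : ℕ in atTop, ∀ t : ℕ,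
    Real.log (n.factorial) / Real.log 2 + 300 * (Real.log n)^2 ≤ t → (t:ℝ) ≤ (n:ℝ)^2/1000 →
    ∑ m ∈ Icc 2 n, (n.descFactorial m : ℝ) * wtg n m t ≤ cmp n := by
  have hlog : Tendsto (fun n : ℕ => Real.log (n:ℝ)) atTop atTop :=
    Real.tendsto_log_atTop.comp tendsto_natCast_atTop_atTop
  have hl1 : Tendsto (fun n : ℕ => Real.log (n:ℝ) / n) atTop (𝓝 0) := by
    have := (Real.isLittleO_log_id_atTop.tendsto_div_nhds_zero).comp
      (tendsto_natCast_atTop_atTop (R := ℝ))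
    simpa [Function.comp_def] using this
  filter_upwards [eventually_ge_atTop 2000, hlog.eventually (eventually_ge_atTop 70),
    hlog.eventually (eventually_ge_atTop (Real.exp 7)),
    hl1.eventually (ge_mem_nhds (show (0:ℝ) < 0.0005 by norm_num))] with n hn hL hLe hln t ht ht2
  have hn' : (2000:ℝ) ≤ n := by exact_mod_cast hn
  have hn0 : (0:ℝ) < n := by linarith
  rw [div_le_iff₀ hn0] at hln
  have hL0 : 0 < Real.log (n:ℝ) := by linarith
  have hL2 : 300 * (Real.log n)^2 ≤ 0.5 * n * Real.log n := by nlinarith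
  have hts : 1.44 * n * (Real.log n - 1) ≤ t := by
    have h1 := log_fact_ge n (by omega)
    have hl2 : Real.log 2 < (0.69315:ℝ) := by have := Real.log_two_lt_d9; linarith
    have hl2g : (0.6931:ℝ) < Real.log 2 := by have := Real.log_two_gt_d9; linarith
    have h2 : 1.44 * n * (Real.log n - 1) ≤ Real.log (n.factorial) / Real.log 2 := by
      rw [le_div_iff₀ (by linarith)]
      have h3 : 0 ≤ (n:ℝ) * (Real.log n - 1) := mul_nonneg hn0.le (by linarith)
      nlinarith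
    have : 0 ≤ 300 * (Real.log (n:ℝ))^2 := by positivity
    linarith
  set r := Real.exp (-(0.02 * Real.log (n:ℝ))) with hrdef
  have hr0 : 0 ≤ r := (Real.exp_pos _).le
  have hr1 : r < 1 := by
    rw [hrdef, Real.exp_lt_one_iff]
    linarith
  have hterm : ∀ m ∈ Icc 2 n, (n.descFactorial m : ℝ) * wtg n m t
      ≤ r^m + Real.exp (-(2 * Real.log n)) := by
    intro m hm
    rw [mem_Icc] at hm
    rcases le_or_gt (2*m) n with h | h
    · have hA := term_small n m t hn h hL hts ht2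
      rw [← hrdef] at hA
      have := Real.exp_pos (-(2 * Real.log (n:ℝ)))
      linarith
    · have := term_large n m t hn h hm.2 hL hLe hL2 ht ht2
      have : 0 ≤ r^m := by positivity
      linarith
  refine (sum_le_sum hterm).trans ?_
  rw [sum_add_distrib]
  unfold cmp
  rw [← hrdef]
  apply add_le_add
  · have hs : ∑ m ∈ Icc 2 n, r^m ≤ ∑' k : ℕ, r^(k+2) := by
      have hsum : Summable (fun k : ℕ => r^(k+2)) := by
        simpa [pow_add] using (summable_geometric_of_lt_one hr0 hr1).mul_right (r^2)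
      have e : ∑ m ∈ Icc 2 n, r^m = ∑ k ∈ range (n-1), r^(k+2) := by
        rw [← Finset.sum_image (f := fun m => r^m) (g := fun k => k + 2)
          (by intro a _ b _ h; simpa using h)]
        apply sum_congr _ (fun _ _ => rfl)
        ext x; simp only [mem_Icc, mem_image, mem_range]
        constructor
        · intro hx; exact ⟨x-2, by omega, by omega⟩
        · rintro ⟨k, hk, rfl⟩; omega
      rw [e]
      exact hsum.sum_le_tsum _ (fun k _ => by positivity)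
    have ht : ∑' k : ℕ, r^(k+2) = r^2 * (1-r)⁻¹ := by
      have : (fun k : ℕ => r^(k+2)) = fun k => r^k * r^2 := by ext k; rw [pow_add]
      rw [this, tsum_mul_right, tsum_geometric_of_lt_one hr0 hr1]; ring
    rw [ht] at hs; exact hs
  · rw [sum_const, nsmul_eq_mul]
    apply mul_le_mul_of_nonneg_right _ (Real.exp_pos _).le
    rw [Nat.card_Icc]
    have : n + 1 - 2 ≤ n := by omega
    exact_mod_cast this

end Pool.Agent.Y458.US
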