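import Pool.Agent.Results.MP_618f8d_co.AlmostAllUnique

set_option autoImplicit false

/-!
# Unique subgraphs: the upper bound by the number of isomorphism classes
-/

namespace Pool.Agent.Y458.US

open Finset Filter Topology
open Pool.Agent.Results.MP_618f8d_co.AlmostAllUnique

variable {n : ℕ}

/-- the image of a set of pairs under a permutation of the vertices -/
def im (σ : Equiv.Perm (Fin n)) (F : Finset (EE n)) : Finset (EE n) := F.map (pe σ).toEmbedding

lemma mem_im (σ : Equiv.Perm (Fin n)) (F : Finset (EE n)) (e : EE n) :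
    pe σ e ∈ im σ F ↔ e ∈ F := by
  unfold im
  rw [Finset.mem_map]
  constructor
  · rintro ⟨e', he', h⟩
    have : e' = e := (pe σ).injective h
    rwa [← this]
  · intro h; exact ⟨e, h, rfl⟩

lemma pe_mul (σ τ : Equiv.Perm (Fin n)) (e : EE n) : pe (σ * τ) e = pe σ (pe τ e) := by
  apply Subtype.ext
  rw [pe_val, pe_val, pe_val, Sym2.map_map]
  rfl

lemma im_mul (σ τ : Equiv.Perm (Fin n)) (F : Finset (EE n)) : im (σ * τ) F = im σ (im τ F) := by
  unfold im
  rw [Finset.map_map]
  congr 1
  ext e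
  simp [pe_mul]

lemma im_one (F : Finset (EE n)) : im 1 F = F := by
  unfold im
  have : (pe (1 : Equiv.Perm (Fin n))).toEmbedding = Function.Embedding.refl _ := by
    ext e
    simp [pe_val]
  rw [this, Finset.map_refl]

lemma adj_ofF (F : Finset (EE n)) (a b : Fin n) :
    (ofF F).Adj a b ↔ ∃ e ∈ F, e.1 = s(a, b) := by
  unfold ofF
  rw [SimpleGraph.fromEdgeSet_adj]
  constructor
  · rintro ⟨⟨e, he, h⟩, _⟩
    exact ⟨e, he, h⟩
  · rintro ⟨e, he, h⟩
    refine ⟨⟨e, he, h⟩, ?_⟩
    rintro rfl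
    exact e.2 (by rw [h]; simp)

/-- a permutation gives an isomorphism -/
lemma iso_of_im (σ : Equiv.Perm (Fin n)) (F F' : Finset (EE n)) (h : im σ F' = F) :
    Nonempty (ofF F' ≃g ofF F) := by
  refine ⟨⟨σ, ?_⟩⟩
  intro a b
  rw [adj_ofF, adj_ofF]
  constructor
  · rintro ⟨e, he, h1⟩
    rw [← h] at he
    unfold im at he
    rw [Finset.mem_map] at he
    obtain ⟨e', he', rfl⟩ := he
    refine ⟨e', he', ?_⟩
    have h2 : (pe σ e').1 = s(σ a, σ b) := h1
    rw [pe_val] at h2
    apply Sym2.map.injective σ.injective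
    rw [h2, Sym2.map_mk]
  · rintro ⟨e, he, h1⟩
    refine ⟨pe σ e, ?_, ?_⟩
    · rw [← h, mem_im]; exact he
    · rw [pe_val, h1, Sym2.map_mk]

open Classical in
/-- Double counting: at most one unique subgraph in each isomorphism class. -/
lemma unique_mul_le (G : SimpleGraph (Fin n)) :
    numUnique G * n.factorial ≤
      ∑ σ : Equiv.Perm (Fin n), (univ.filter fun F : Finset (EE n) => im σ F = F).card := by
  set U := (toF G).powerset.filter (fun F => IsUniqueSubgraph G (ofF F)) with hU
  have hUu : ∀ F ∈ U, ∀ F' ∈ U, ∀ σ : Equiv.Perm (Fin n), im σ F' = F → F' = F := by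
    intro F hF F' hF' σ h
    rw [hU, mem_filter] at hF hF'
    have h1 := hF.2.2 (ofF F') hF'.2.1 (iso_of_im σ F F' h)
    exact ofF_injective h1
  have hex : ∀ K : Finset (EE n), ∃ τ : Equiv.Perm (Fin n),
      (∃ F ∈ U, ∃ σ : Equiv.Perm (Fin n), im σ F = K) → ∃ F ∈ U, im τ F = K := by
    intro K
    by_cases h : ∃ F ∈ U, ∃ σ : Equiv.Perm (Fin n), im σ F = K
    · obtain ⟨F, hF, σ, hσ⟩ := h
      exact ⟨σ, fun _ => ⟨F, hF, hσ⟩⟩
    · exact ⟨1, fun h' => absurd h' h⟩
  choose c hc using hex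
  have hcard : (U ×ˢ (univ : Finset (Equiv.Perm (Fin n)))).card = numUnique G * n.factorial := by
    rw [card_product, ← numUnique_eq, card_univ, Fintype.card_perm, Fintype.card_fin]
  rw [← hcard, ← Finset.card_sigma]
  refine Finset.card_le_card_of_injOn (fun p => ⟨p.2 * (c (im p.2 p.1))⁻¹, im p.2 p.1⟩) ?_ ?_
  · rintro ⟨F, σ⟩ hp
    rw [mem_coe, mem_product] at hp
    rw [mem_coe, mem_sigma]
    refine ⟨mem_univ _, ?_⟩
    rw [mem_filter]
    refine ⟨mem_univ _, ?_⟩
    obtain ⟨F', hF', h⟩ := hc (im σ F) ⟨F, hp.1, σ, rfl⟩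
    have h1 : F' = F := by
      apply hUu F hp.1 F' hF' (σ⁻¹ * c (im σ F))
      rw [im_mul, h, ← im_mul, inv_mul_cancel, im_one]
    show im (σ * (c (im σ F))⁻¹) (im σ F) = im σ F
    have h2 : im (c (im σ F))⁻¹ (im σ F) = F' := by
      have h3 := congrArg (im (c (im σ F))⁻¹) h
      rw [← im_mul, inv_mul_cancel, im_one] at h3
      exact h3.symm
    rw [im_mul, h2, h1]
  · rintro ⟨F, σ⟩ _ ⟨F', σ'⟩ _ h
    simp only [Sigma.mk.injEq, heq_eq_eq] at h
    obtain ⟨h1, h2⟩ := h
    rw [h2] at h1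
    have h3 : σ = σ' := mul_right_cancel h1
    subst h3
    have h4 : F = F' := by
      have := congrArg (im σ⁻¹) h2
      rwa [← im_mul, ← im_mul, inv_mul_cancel, im_one, im_one] at this
    rw [h4]

open Classical in
/-- The number of sets of pairs invariant under a permutation moving `m` points. -/
lemma fixed_sets (σ : Equiv.Perm (Fin n)) (hn : 2000 ≤ n) :
    ((univ.filter fun F : Finset (EE n) => im σ F = F).card : ℝ)
      ≤ 2^(n.choose 2) * Real.exp (-(0.11 * n * σ.support.card)) := by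
  have hn' : (2000:ℝ) ≤ n := by exact_mod_cast hn
  set m := σ.support.card with hm
  have hmn : m ≤ n := by
    have := card_le_univ σ.support
    rwa [Fintype.card_fin] at this
  have hmn' : (m:ℝ) ≤ n := by exact_mod_cast hmn
  have hm0 : (0:ℝ) ≤ m := Nat.cast_nonneg m
  obtain ⟨M₁, M₂, M₃, -, -, -, hU, i1, i2, i3⟩ :=
    exists_three (pe σ) (univ.filter (fun x => pe σ x ≠ x)) (by intro x hx; simpa using hx)
  -- one of the three parts is large
  have hbig : ∃ M : Finset (EE n), (∀ x ∈ M, pe σ x ∉ M) ∧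
      (univ.filter (fun x => pe σ x ≠ x)).card ≤ 3 * M.card := by
    have h1 : (univ.filter (fun x => pe σ x ≠ x)).card ≤ M₁.card + M₂.card + M₃.card := by
      rw [← hU]
      exact (card_union_le _ _).trans (Nat.add_le_add_right (card_union_le _ _) _)
    by_cases c1 : (univ.filter (fun x => pe σ x ≠ x)).card ≤ 3 * M₁.card
    · exact ⟨M₁, i1, c1⟩
    by_cases c2 : (univ.filter (fun x => pe σ x ≠ x)).card ≤ 3 * M₂.card
    · exact ⟨M₂, i2, c2⟩
    exact ⟨M₃, i3, by omega⟩
  obtain ⟨M, hMi, hMc⟩ := hbig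
  -- invariant sets are determined outside `M`
  have h2 : (univ.filter fun F : Finset (EE n) => im σ F = F).card ≤ ((univ : Finset (EE n)) \ M).powerset.card := by
    refine Finset.card_le_card_of_injOn (fun F => F \ M) ?_ ?_
    · intro F _
      rw [mem_coe, mem_powerset]
      exact sdiff_subset_sdiff (subset_univ _) (subset_refl _)
    · intro F hF F' hF' h
      rw [mem_coe, mem_filter] at hF hF'
      have h : F \ M = F' \ M := h
      have key : ∀ x, x ∉ M → (x ∈ F ↔ x ∈ F') := by
        intro x hx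
        have : x ∈ F \ M ↔ x ∈ F' \ M := by rw [h]
        simpa [mem_sdiff, hx] using this
      ext x
      by_cases hx : x ∈ M
      · have e1 : x ∈ F ↔ pe σ x ∈ F := by
          conv_rhs => rw [← hF.2]
          exact (mem_im σ F x).symm
        have e2 : x ∈ F' ↔ pe σ x ∈ F' := by
          conv_rhs => rw [← hF'.2]
          exact (mem_im σ F' x).symm
        rw [e1, e2]
        exact key _ (hMi x hx)
      · exact key x hx
  rw [card_powerset] at h2
  have h3 : ((univ : Finset (EE n)) \ M).card + M.card = n.choose 2 := by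
    rw [card_sdiff_add_card_eq_card (subset_univ _), card_univ, card_EE]
  -- the number of moved pairs
  have h4 : (m:ℝ) * (n - 3) / 2 ≤ (univ.filter (fun x : EE n => pe σ x ≠ x)).card := by
    have h5 := fixed_le σ
    rw [← hm] at h5
    have h6 := card_filter_add_card_filter_not (s := (univ : Finset (EE n))) (fun x => pe σ x = x)
    rw [card_univ, card_EE] at h6
    have h5' : ((univ.filter (fun x : EE n => pe σ x = x)).card : ℝ)
        ≤ ((n:ℝ)-m)*((n:ℝ)-m-1)/2 + m := by
      have : ((univ.filter (fun x : EE n => pe σ x = x)).card : ℝ)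
          ≤ (((n - m).choose 2 + m : ℕ) : ℝ) := by exact_mod_cast h5
      refine this.trans (le_of_eq ?_)
      push_cast [Nat.cast_choose_two, Nat.cast_sub hmn]
      ring
    have h6' : ((univ.filter (fun x : EE n => pe σ x = x)).card : ℝ)
        + (univ.filter (fun x : EE n => pe σ x ≠ x)).card = (n:ℝ) * (n-1)/2 := by
      rw [← choose_two_real n]
      exact_mod_cast h6
    nlinarith [mul_nonneg hm0 (by linarith : (0:ℝ) ≤ (n:ℝ) - m)]
  have h5 : 0.11 * n * m ≤ Real.log 2 * M.card := by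
    have hl2g : (0.6931:ℝ) < Real.log 2 := by have := Real.log_two_gt_d9; linarith
    have h6 : ((univ.filter (fun x : EE n => pe σ x ≠ x)).card : ℝ) ≤ 3 * M.card := by
      exact_mod_cast hMc
    have h7 : (m:ℝ) * (n - 3) / 6 ≤ M.card := by linarith
    have h8 : (0:ℝ) ≤ M.card := Nat.cast_nonneg _
    have h9 : 0.6931 * (M.card : ℝ) ≤ Real.log 2 * M.card := mul_le_mul_of_nonneg_right hl2g.le h8
    nlinarith [mul_nonneg hm0 (by linarith : (0:ℝ) ≤ (n:ℝ) - 2000)]
  have h6 : ((2 ^ ((univ : Finset (EE n)) \ M).card : ℕ) : ℝ)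
      = 2^(n.choose 2) * Real.exp (-(Real.log 2 * M.card)) := by
    rw [← h3, pow_add, Real.exp_neg, mul_comm (Real.log 2), Real.exp_nat_mul,
      Real.exp_log (by norm_num)]
    push_cast
    field_simp
  calc ((univ.filter fun F : Finset (EE n) => im σ F = F).card : ℝ)
      ≤ ((2 ^ ((univ : Finset (EE n)) \ M).card : ℕ) : ℝ) := by exact_mod_cast h2
    _ = 2^(n.choose 2) * Real.exp (-(Real.log 2 * M.card)) := h6
    _ ≤ _ := by
        apply mul_le_mul_of_nonneg_left _ (by positivity)
        apply Real.exp_le_exp.mpr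
        linarith

/-- The bound for all graphs. -/
lemma upper (hn : 2000 ≤ n) (hq : (n:ℝ) * Real.exp (-(0.11 * n)) < 1) (G : SimpleGraph (Fin n)) :
    (numUnique G : ℝ) * n.factorial ≤ 2^(n.choose 2) *
      (1 + ((n:ℝ) * Real.exp (-(0.11 * n)))^2 * (1 - (n:ℝ) * Real.exp (-(0.11 * n)))⁻¹) := by
  classical
  set q := (n:ℝ) * Real.exp (-(0.11 * n)) with hqdef
  have hq0 : 0 ≤ q := by rw [hqdef]; positivity
  have h1 : (numUnique G : ℝ) * n.factorial ≤
      ∑ σ : Equiv.Perm (Fin n), ((univ.filter fun F : Finset (EE n) => im σ F = F).card : ℝ) := by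
    exact_mod_cast unique_mul_le G
  have h2 : ∑ σ : Equiv.Perm (Fin n), ((univ.filter fun F : Finset (EE n) => im σ F = F).card : ℝ)
      ≤ ∑ σ : Equiv.Perm (Fin n), 2^(n.choose 2) * Real.exp (-(0.11 * n * σ.support.card)) :=
    sum_le_sum fun σ _ => fixed_sets σ hn
  rw [← mul_sum] at h2
  refine h1.trans (h2.trans (mul_le_mul_of_nonneg_left ?_ (by positivity)))
  rw [← Finset.add_sum_erase _ _ (mem_univ (1 : Equiv.Perm (Fin n)))]
  have e1 : Real.exp (-(0.11 * n * ((1 : Equiv.Perm (Fin n)).support.card : ℝ))) = 1 := by simp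
  rw [e1]
  apply add_le_add le_rfl
  have h3 : ∀ σ ∈ (univ : Finset (Equiv.Perm (Fin n))).erase 1, σ.support.card ∈ Icc 2 n := by
    intro σ hσ
    rw [mem_erase] at hσ
    rw [mem_Icc]
    refine ⟨Equiv.Perm.two_le_card_support_of_ne_one hσ.1, ?_⟩
    have := card_le_univ σ.support
    rwa [Fintype.card_fin] at this
  rw [← sum_fiberwise_of_maps_to h3]
  have h4 : ∀ m ∈ Icc 2 n, ∑ σ ∈ ((univ : Finset (Equiv.Perm (Fin n))).erase 1).filter
      (fun σ => σ.support.card = m), Real.exp (-(0.11 * n * (σ.support.card : ℝ))) ≤ q^m := by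
    intro m _
    have h5 : ∀ σ ∈ ((univ : Finset (Equiv.Perm (Fin n))).erase 1).filter
        (fun σ => σ.support.card = m), Real.exp (-(0.11 * n * (σ.support.card : ℝ)))
          = Real.exp (-(0.11 * n)) ^ m := by
      intro σ hσ
      rw [(mem_filter.mp hσ).2, ← Real.exp_nat_mul]
      congr 1; ring
    rw [sum_congr rfl h5, sum_const, nsmul_eq_mul, hqdef, mul_pow]
    apply mul_le_mul_of_nonneg_right _ (by positivity)
    have h6 : ((univ : Finset (Equiv.Perm (Fin n))).erase 1).filter (fun σ => σ.support.card = m) ⊆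
        (univ : Finset (Equiv.Perm (Fin n))).filter (fun σ => σ.support.card = m) := by
      apply filter_subset_filter; exact erase_subset _ _
    have h7 := ((card_le_card h6).trans (card_support_eq_le m)).trans (Nat.descFactorial_le_pow n m)
    exact_mod_cast h7
  refine (sum_le_sum h4).trans ?_
  have hsum : Summable (fun k : ℕ => q^(k+2)) := by
    simpa [pow_add] using (summable_geometric_of_lt_one hq0 hq).mul_right (q^2)
  have e : ∑ m ∈ Icc 2 n, q^m = ∑ k ∈ range (n-1), q^(k+2) := by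
    rw [← Finset.sum_image (f := fun m => q^m) (g := fun k => k + 2)
      (by intro a _ b _ h; simpa using h)]
    apply sum_congr _ (fun _ _ => rfl)
    ext x; simp only [mem_Icc, mem_image, mem_range]
    constructor
    · intro hx; exact ⟨x-2, by omega, by omega⟩
    · rintro ⟨k, hk, rfl⟩; omega
  rw [e]
  refine (hsum.sum_le_tsum _ (fun k _ => by positivity)).trans (le_of_eq ?_)
  have : (fun k : ℕ => q^(k+2)) = fun k => q^k * q^2 := by ext k; rw [pow_add]
  rw [this, tsum_mul_right, tsum_geometric_of_lt_one hq0 hq]; ring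

/-- Every graph on `n` vertices has at most `(1 + ε) 2 ^ C(n,2) / n!` unique subgraphs. -/
lemma upper_eventually (ε : ℝ) (hε : 0 < ε) : ∀ᶠ n : ℕ in atTop, ∀ G : SimpleGraph (Fin n),
    (numUnique G : ℝ) * n.factorial ≤ (1 + ε) * 2^(n.choose 2) := by
  have hq : Tendsto (fun n : ℕ => (n:ℝ) * Real.exp (-(0.11 * n))) atTop (𝓝 0) := by
    have h := (Real.tendsto_pow_mul_exp_neg_atTop_nhds_zero 1).comp
      ((tendsto_natCast_atTop_atTop (R := ℝ)).const_mul_atTop (by norm_num : (0:ℝ) < 0.11))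
    have h2 := h.const_mul (1/0.11)
    simp only [mul_zero] at h2
    refine h2.congr ?_
    intro n
    simp only [Function.comp_apply, pow_one]
    ring
  have h1 : Tendsto (fun n : ℕ => ((n:ℝ) * Real.exp (-(0.11 * n)))^2 *
      (1 - (n:ℝ) * Real.exp (-(0.11 * n)))⁻¹) atTop (𝓝 0) := by
    have := (hq.pow 2).mul ((tendsto_const_nhds (x := (1:ℝ)).sub hq).inv₀ (by norm_num))
    simpa using this
  filter_upwards [eventually_ge_atTop 2000, hq.eventually (gt_mem_nhds (show (0:ℝ) < 1 by norm_num)),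
    h1.eventually (ge_mem_nhds hε)] with n hn h2 h3 G
  refine (upper hn h2 G).trans ?_
  rw [mul_comm]
  apply mul_le_mul_of_nonneg_right _ (by positivity)
  linarith

end Pool.Agent.Y458.US
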