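import Pool.Agent.Y458.US.Ana
import Pool.Agent.Y458.US.Neg

set_option autoImplicit false

/-!
# Unique subgraphs: the threshold for the number of missing edges

A graph on `n` vertices with `t` missing edges has `2 ^ (C(n,2) - t)` spanning subgraphs. We show
that almost all of them are unique, for almost all graphs, as soon as
`t ≥ log₂ (n!) + 300 (log n)²`, and that no graph at all has a positive proportion of unique
subgraphs when `t ≤ log₂ (n!) - s` with `s → ∞`. Here `log₂ (n!) = n log₂ n - n log₂ e + O(log n)`.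
-/

namespace Pool.Agent.Y458.US

open Finset Filter Topology
open Pool.Agent.Results.MP_618f8d_co.AlmostAllUnique

/-- The probability that a graph chosen uniformly at random among all graphs on `n` labelled
vertices with exactly `C(n,2) - t` edges has at least `c * 2 ^ (C(n,2) - t)` unique subgraphs. -/
noncomputable def prob (n t : ℕ) (c : ℝ) : ℝ :=
  ({G : SimpleGraph (Fin n) | G.edgeSet.ncard = n.choose 2 - t ∧
      c * 2 ^ (n.choose 2 - t) ≤ (numUnique G : ℝ)}.ncard : ℝ) /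
    ({G : SimpleGraph (Fin n) | G.edgeSet.ncard = n.choose 2 - t}.ncard : ℝ)

theorem exists_of_prob {n t : ℕ} {c : ℝ} (h : 0 < prob n t c) :
    ∃ G : SimpleGraph (Fin n), G.edgeSet.ncard = n.choose 2 - t ∧
      c * 2 ^ (n.choose 2 - t) ≤ (numUnique G : ℝ) := by
  by_contra hcon
  push Not at hcon
  have h1 : {G : SimpleGraph (Fin n) | G.edgeSet.ncard = n.choose 2 - t ∧
      c * 2 ^ (n.choose 2 - t) ≤ (numUnique G : ℝ)} = ∅ := by
    ext G
    simp only [Set.mem_ofPred_eq, Set.mem_empty_iff_false, iff_false, not_and, not_le]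
    exact hcon G
  unfold prob at h
  rw [h1] at h
  simp at h

theorem positive (c : ℝ) (hc : c < 1) (ε : ℝ) (hε : 0 < ε) : ∀ᶠ n : ℕ in atTop, ∀ t : ℕ,
    Real.logb 2 n.factorial + 300 * (Real.log n) ^ 2 ≤ t → (t : ℝ) ≤ (n : ℝ) ^ 2 / 1000 →
      1 - ε ≤ prob n t c := by
  have h1c : 0 < 1 - c := by linarith
  have h1 := (cmp_tendsto.const_mul (1 - c)⁻¹).eventually
    (ge_mem_nhds (show (1 - c)⁻¹ * 0 < ε by rw [mul_zero]; exact hε))
  filter_upwards [h1, sum_le_cmp, eventually_ge_atTop 2] with n h2 h3 hn t ht ht2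
  have hn' : (2:ℝ) ≤ n := by exact_mod_cast hn
  have hN : 0 < n.choose 2 := Nat.choose_pos hn
  have htN : t ≤ n.choose 2 := by
    have : (t:ℝ) ≤ (n.choose 2 : ℕ) := by
      rw [choose_two_real n]
      nlinarith
    exact_mod_cast this
  have h4 := ratio_bound t c hc hN htN
  have h5 := h3 t (by rw [← Real.logb]; exact ht) ht2
  have h6 : (1 - c)⁻¹ * ∑ m ∈ Icc 2 n, (n.descFactorial m : ℝ) * wtg n m t ≤ ε :=
    (mul_le_mul_of_nonneg_left h5 (by positivity)).trans h2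
  unfold prob
  linarith

theorem negative (ε : ℝ) (hε : 0 < ε) : ∀ᶠ n : ℕ in atTop, ∀ t ≤ n.choose 2,
    ∀ G : SimpleGraph (Fin n), G.edgeSet.ncard = n.choose 2 - t →
      (numUnique G : ℝ) ≤
        (1 + ε) * (2 : ℝ) ^ ((t : ℝ) - Real.logb 2 n.factorial) * 2 ^ (n.choose 2 - t) := by
  filter_upwards [upper_eventually ε hε] with n h t ht G _
  have hf : (0:ℝ) < n.factorial := by exact_mod_cast n.factorial_pos
  have e : (2 : ℝ) ^ ((t : ℝ) - Real.logb 2 n.factorial) = 2 ^ t / n.factorial := by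
    rw [Real.rpow_sub (by norm_num), Real.rpow_natCast, Real.rpow_logb (by norm_num) (by norm_num) hf]
  have e2 : (2:ℝ) ^ (n.choose 2) = 2 ^ t * 2 ^ (n.choose 2 - t) := by
    rw [← pow_add]; congr 1; omega
  have h1 := h G
  rw [e2] at h1
  rw [e]
  have e3 : (1 + ε) * (2 ^ t / (n.factorial : ℝ)) * 2 ^ (n.choose 2 - t)
      = (1 + ε) * (2 ^ t * 2 ^ (n.choose 2 - t)) / n.factorial := by ring
  rw [e3, le_div_iff₀ hf]
  exact h1

theorem many : ∀ᶠ n : ℕ in atTop, ∃ G : SimpleGraph (Fin n),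
    2 ^ (n.choose 2) / n.factorial * Real.exp (-(209 * (Real.log n) ^ 2)) ≤ (numUnique G : ℝ) := by
  have hlog : Tendsto (fun n : ℕ => Real.log (n:ℝ)) atTop atTop :=
    Real.tendsto_log_atTop.comp tendsto_natCast_atTop_atTop
  have hl1 : Tendsto (fun n : ℕ => Real.log (n:ℝ) / n) atTop (𝓝 0) := by
    have := (Real.isLittleO_log_id_atTop.tendsto_div_nhds_zero).comp
      (tendsto_natCast_atTop_atTop (R := ℝ))
    simpa [Function.comp_def] using this
  filter_upwards [positive (1/2) (by norm_num) (1/2) (by norm_num), eventually_ge_atTop 2000,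
    hlog.eventually (eventually_ge_atTop 70),
    hl1.eventually (ge_mem_nhds (show (0:ℝ) < 0.0001 by norm_num))] with n hpos hn hL hln
  have hn' : (2000:ℝ) ≤ n := by exact_mod_cast hn
  have hn0 : (0:ℝ) < n := by linarith
  rw [div_le_iff₀ hn0] at hln
  have hl2 : Real.log 2 < (0.69315:ℝ) := by have := Real.log_two_lt_d9; linarith
  have hl2g : (0.6931:ℝ) < Real.log 2 := by have := Real.log_two_gt_d9; linarith
  have hf : (0:ℝ) < n.factorial := by exact_mod_cast n.factorial_pos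
  have hlf0 : 0 ≤ Real.log (n.factorial) := Real.log_nonneg (by exact_mod_cast n.factorial_pos)
  set L := Real.log (n:ℝ) with hLdef
  set x : ℝ := Real.logb 2 n.factorial + 300 * L ^ 2 with hx
  have hlb : Real.logb 2 n.factorial = Real.log (n.factorial) / Real.log 2 := rfl
  have hx0 : 0 ≤ x := by
    rw [hx, hlb]
    have : 0 ≤ Real.log (n.factorial) / Real.log 2 := div_nonneg hlf0 (by linarith)
    positivity
  have h1 : x ≤ (⌈x⌉₊ : ℝ) := Nat.le_ceil x
  have h2 : (⌈x⌉₊ : ℝ) < x + 1 := Nat.ceil_lt_add_one hx0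
  have hnL : 0 ≤ (n:ℝ) * L := mul_nonneg hn0.le (by linarith)
  have h3 : x + 1 ≤ (n:ℝ)^2/1000 := by
    have h4 := a4 n L (Real.log (n.factorial)) (Real.log 2) hl2g (log_fact_le n) hnL
    have h5 : (n:ℝ) * L ≤ 0.0001 * (n:ℝ)^2 := by
      have := mul_le_mul_of_nonneg_left hln hn0.le
      linarith
    have h6 : L ^ 2 ≤ 0.0001 * ((n:ℝ) * L) := by
      have := mul_le_mul_of_nonneg_right hln (show 0 ≤ L by linarith)
      linarith
    have h7 : (2000:ℝ) ^ 2 ≤ (n:ℝ)^2 := pow_le_pow_left₀ (by norm_num) hn' 2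
    rw [hx, hlb]
    linarith
  obtain ⟨G, hG1, hG2⟩ := exists_of_prob (lt_of_lt_of_le (by norm_num)
    (hpos ⌈x⌉₊ h1 (by linarith)))
  refine ⟨G, le_trans ?_ hG2⟩
  have htN : ⌈x⌉₊ ≤ n.choose 2 := by
    have h4 : (⌈x⌉₊ : ℝ) ≤ (n.choose 2 : ℕ) := by
      rw [choose_two_real n]
      nlinarith
    exact_mod_cast h4
  have e1 : ∀ k : ℕ, (2:ℝ) ^ k = Real.exp (Real.log 2 * k) := by
    intro k
    rw [mul_comm, Real.exp_nat_mul, Real.exp_log (by norm_num)]
  have e2 : (1/2 : ℝ) = Real.exp (-Real.log 2) := by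
    rw [Real.exp_neg, Real.exp_log (by norm_num)]; norm_num
  have e3 : (n.factorial : ℝ) = Real.exp (Real.log (n.factorial)) := (Real.exp_log hf).symm
  rw [e1, e1, e2, ← Real.exp_add, Nat.cast_sub htN]
  conv_lhs => rw [e3]
  rw [← Real.exp_sub, ← Real.exp_add]
  apply Real.exp_le_exp.mpr
  have h8 : Real.log 2 * (⌈x⌉₊ : ℝ) ≤ Real.log 2 * (x + 1) :=
    mul_le_mul_of_nonneg_left h2.le (by linarith)
  have h9 : Real.log 2 * (x + 1) = Real.log (n.factorial) + 300 * (Real.log 2 * L ^ 2)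
      + Real.log 2 := by
    rw [hx, hlb]
    have : Real.log 2 ≠ 0 := by linarith
    field_simp
  have h10 : Real.log 2 * L ^ 2 ≤ 0.69315 * L ^ 2 :=
    mul_le_mul_of_nonneg_right hl2.le (sq_nonneg L)
  have h11 : (70:ℝ) ^ 2 ≤ L ^ 2 := pow_le_pow_left₀ (by norm_num) hL 2
  linarith

theorem final :
    (∀ c < (1 : ℝ), ∀ ε > (0 : ℝ), ∀ᶠ n : ℕ in atTop, ∀ t : ℕ,
      Real.logb 2 n.factorial + 300 * (Real.log n) ^ 2 ≤ t → (t : ℝ) ≤ (n : ℝ) ^ 2 / 1000 →
        1 - ε ≤ prob n t c) ∧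
    (∀ ε > (0 : ℝ), ∀ᶠ n : ℕ in atTop, ∀ t ≤ n.choose 2,
      ∀ G : SimpleGraph (Fin n), G.edgeSet.ncard = n.choose 2 - t →
        (numUnique G : ℝ) ≤
          (1 + ε) * (2 : ℝ) ^ ((t : ℝ) - Real.logb 2 n.factorial) * 2 ^ (n.choose 2 - t)) ∧
    (∀ c < (1 : ℝ),
      Tendsto (fun n : ℕ => prob n ⌊(n : ℝ) * Real.log n / Real.log 2⌋₊ c) atTop (𝓝 1) ∧
      ∀ᶠ n : ℕ in atTop, ∃ G : SimpleGraph (Fin n),
        G.edgeSet.ncard = n.choose 2 - ⌊(n : ℝ) * Real.log n / Real.log 2⌋₊ ∧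
        c * 2 ^ (n.choose 2 - ⌊(n : ℝ) * Real.log n / Real.log 2⌋₊) ≤ (numUnique G : ℝ)) ∧
    ∀ᶠ n : ℕ in atTop, ∃ G : SimpleGraph (Fin n),
      2 ^ (n.choose 2) / n.factorial * Real.exp (-(209 * (Real.log n) ^ 2)) ≤
        (numUnique G : ℝ) := by
  refine ⟨positive, negative, fun c hc => ?_, many⟩
  have h : Tendsto (fun n : ℕ => prob n ⌊(n : ℝ) * Real.log n / Real.log 2⌋₊ c) atTop (𝓝 1) :=
    Pool.Agent.Results.MP_618f8d_co.AlmostAllUnique.result c hc
  exact ⟨h, (h.eventually (lt_mem_nhds (show (0:ℝ) < 1 by norm_num))).mono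
    fun n hn => exists_of_prob hn⟩

end Pool.Agent.Y458.US
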