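import Pool.Agent.Results.MP_618f8d_co.AlmostAllUnique

set_option autoImplicit false

/-!
# Unique subgraphs: an arbitrary number of missing edges
-/

namespace Pool.Agent.Y458.US

open Finset Filter Topology
open Pool.Agent.Results.MP_618f8d_co.AlmostAllUnique

/-- The weight of a permutation moving `m` points, for `t` missing edges. -/
noncomputable def wtg (n m t : ℕ) : ℝ :=
  ((1 + (((n-m).choose 2 + m : ℕ) : ℝ)/(n.choose 2 : ℕ))/2)^t
    * (1 + 7*((t : ℝ)/(n.choose 2 : ℕ))^2)^(m*n)

variable {n : ℕ}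

lemma perm_weight (t : ℕ) (σ : Equiv.Perm (Fin n)) (hN : 0 < n.choose 2) (ht : t ≤ n.choose 2) :
    ∑ G ∈ powersetCard (n.choose 2 - t) (univ : Finset (EE n)),
        ((G.powerset.filter (fun F => F.map (pe σ).toEmbedding ⊆ G)).card : ℝ)
      ≤ ((n.choose 2).choose t : ℝ) * 2^(n.choose 2 - t) * wtg n σ.support.card t := by
  have h1 := pair_count (pe σ) t (by rw [card_EE]; exact ht)
  have h2 := main_bound (pe σ) t (by rw [card_EE]; exact ht) (by rw [card_EE]; exact hN)
  rw [card_EE] at h1 h2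
  rw [h1, ← mul_sum]
  have hp : (0:ℝ) ≤ (2:ℝ)^(n.choose 2) / 4^t := by positivity
  refine (mul_le_mul_of_nonneg_left h2 hp).trans ?_
  have hN' : (0:ℝ) < (n.choose 2 : ℕ) := by exact_mod_cast hN
  have hf : ((univ.filter (fun e : EE n => pe σ e = e)).card : ℝ) / (n.choose 2 : ℕ) ≤
      (((n-σ.support.card).choose 2 + σ.support.card : ℕ) : ℝ)/(n.choose 2 : ℕ) := by
    gcongr
    exact fixed_le σ
  have h3 : (1 + ((univ.filter (fun e : EE n => pe σ e = e)).card : ℝ) / (n.choose 2 : ℕ))^t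
     ≤ (1 + (((n-σ.support.card).choose 2 + σ.support.card : ℕ) : ℝ)/(n.choose 2 : ℕ))^t := by
    gcongr
  have h4 : (1 + 7 * ((t : ℝ)/(n.choose 2 : ℕ))^2)^(univ.filter (fun e : EE n => pe σ e ≠ e)).card
     ≤ (1 + 7 * ((t : ℝ)/(n.choose 2 : ℕ))^2)^(σ.support.card * n) := by
    apply pow_le_pow_right₀
    · have : 0 ≤ 7 * ((t : ℝ)/(n.choose 2 : ℕ))^2 := by positivity
      linarith
    · exact moved_le σ
  have h5 : (2:ℝ)^(n.choose 2) / 4^t = 2^(n.choose 2 - t) * (1/2)^t := by
    have : (2:ℝ)^(n.choose 2) = 2^(n.choose 2 - t) * 2^t := by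
      rw [← pow_add]; congr 1; omega
    rw [this]
    have e : (4:ℝ)^t = 2^t * 2^t := by rw [← mul_pow]; norm_num
    rw [e, one_div, inv_pow]
    field_simp
  rw [h5]
  calc (2:ℝ)^(n.choose 2 - t) * (1/2)^t * (((n.choose 2).choose t : ℝ) *
        ((1 + ((univ.filter (fun e : EE n => pe σ e = e)).card : ℝ) / (n.choose 2 : ℕ))^t *
        (1 + 7 * ((t : ℝ)/(n.choose 2 : ℕ))^2)^(univ.filter (fun e : EE n => pe σ e ≠ e)).card))
      ≤ (2:ℝ)^(n.choose 2 - t) * (1/2)^t * (((n.choose 2).choose t : ℝ) *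
        ((1 + (((n-σ.support.card).choose 2 + σ.support.card : ℕ) : ℝ)/(n.choose 2 : ℕ))^t *
        (1 + 7 * ((t : ℝ)/(n.choose 2 : ℕ))^2)^(σ.support.card * n))) := by
        gcongr
    _ = _ := by
        unfold wtg
        have e : ∀ x : ℝ, ((1 + x)/2)^t = (1/2)^t * (1+x)^t := by
          intro x; rw [← mul_pow]; congr 1; ring
        rw [e]; ring

lemma total_weight (t : ℕ) (hN : 0 < n.choose 2) (ht : t ≤ n.choose 2) :
    ∑ s ∈ powersetCard (n.choose 2 - t) (univ : Finset (EE n)),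
        ((2:ℝ)^(n.choose 2 - t) - numUnique (ofF s))
      ≤ ((n.choose 2).choose t : ℝ) * 2^(n.choose 2 - t) *
        ∑ m ∈ Icc 2 n, (n.descFactorial m : ℝ) * wtg n m t := by
  classical
  have h1 : ∀ s ∈ powersetCard (n.choose 2 - t) (univ : Finset (EE n)),
      ((2:ℝ)^(n.choose 2 - t) - numUnique (ofF s)) ≤
      ∑ σ ∈ (univ : Finset (Equiv.Perm (Fin n))).erase 1,
      ((s.powerset.filter (fun F => F.map (pe σ).toEmbedding ⊆ s)).card : ℝ) := by
    intro s hs
    rw [mem_powersetCard] at hs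
    have := nonunique_le (ofF s)
    rw [toF_ofF, hs.2] at this
    exact this
  refine (sum_le_sum h1).trans ?_
  rw [sum_comm]
  refine (sum_le_sum (fun σ _ => perm_weight t σ hN ht)).trans ?_
  rw [← mul_sum]
  apply mul_le_mul_of_nonneg_left _ (by positivity)
  have h2 : ∀ σ ∈ (univ : Finset (Equiv.Perm (Fin n))).erase 1, σ.support.card ∈ Icc 2 n := by
    intro σ hσ
    rw [mem_erase] at hσ
    rw [mem_Icc]
    refine ⟨Equiv.Perm.two_le_card_support_of_ne_one hσ.1, ?_⟩
    have := card_le_univ σ.support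
    rwa [Fintype.card_fin] at this
  rw [← sum_fiberwise_of_maps_to h2]
  apply sum_le_sum
  intro m _
  have h3 : ∀ σ ∈ ((univ : Finset (Equiv.Perm (Fin n))).erase 1).filter (fun σ => σ.support.card = m),
      wtg n σ.support.card t = wtg n m t := by
    intro σ hσ
    rw [(mem_filter.mp hσ).2]
  rw [sum_congr rfl h3, sum_const, nsmul_eq_mul]
  apply mul_le_mul_of_nonneg_right _ (by unfold wtg; positivity)
  have h4 : ((univ : Finset (Equiv.Perm (Fin n))).erase 1).filter (fun σ => σ.support.card = m) ⊆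
      (univ : Finset (Equiv.Perm (Fin n))).filter (fun σ => σ.support.card = m) := by
    apply filter_subset_filter; exact erase_subset _ _
  have h5 := (card_le_card h4).trans (card_support_eq_le m)
  exact_mod_cast h5

lemma ratio_bound (t : ℕ) (c : ℝ) (hc : c < 1) (hN : 0 < n.choose 2) (ht : t ≤ n.choose 2) :
    1 - (1 - c)⁻¹ * ∑ m ∈ Icc 2 n, (n.descFactorial m : ℝ) * wtg n m t ≤
    (({G : SimpleGraph (Fin n) | G.edgeSet.ncard = (n.choose 2 - t) ∧ c * 2 ^ ((n.choose 2 - t)) ≤ (numUnique G : ℝ)}.ncard : ℝ)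
      / ({G : SimpleGraph (Fin n) | G.edgeSet.ncard = (n.choose 2 - t)}.ncard : ℝ)) := by
  classical
  set m := n.choose 2 - t with hmdef
  have hset : {G : SimpleGraph (Fin n) | G.edgeSet.ncard = m}
      = ofF '' (((powersetCard m (univ : Finset (EE n))) : Finset (Finset (EE n))) : Set (Finset (EE n))) := by
    ext G
    constructor
    · intro hG
      refine ⟨toF G, ?_, ofF_toF G⟩
      rw [mem_coe, mem_powersetCard, ← card_toF]
      exact ⟨subset_univ _, hG⟩
    · rintro ⟨s, hs, rfl⟩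
      rw [mem_coe, mem_powersetCard] at hs
      show (ofF s).edgeSet.ncard = m
      rw [card_toF, toF_ofF, hs.2]
  have hset2 : {G : SimpleGraph (Fin n) | G.edgeSet.ncard = m ∧ c * 2 ^ m ≤ (numUnique G : ℝ)}
      = ofF '' ((((powersetCard m (univ : Finset (EE n))).filter (fun s => c * 2 ^ m ≤ (numUnique (ofF s) : ℝ))) : Finset (Finset (EE n))) : Set (Finset (EE n))) := by
    ext G
    constructor
    · rintro ⟨hG, hG2⟩
      refine ⟨toF G, ?_, ofF_toF G⟩
      rw [mem_coe, mem_filter, mem_powersetCard, ← card_toF, ofF_toF]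
      exact ⟨⟨subset_univ _, hG⟩, hG2⟩
    · rintro ⟨s, hs, rfl⟩
      rw [mem_coe, mem_filter, mem_powersetCard] at hs
      refine ⟨?_, hs.2⟩
      rw [card_toF, toF_ofF, hs.1.2]
  rw [hset, hset2, Set.ncard_image_of_injective _ ofF_injective, Set.ncard_image_of_injective _ ofF_injective,
    Set.ncard_coe_finset, Set.ncard_coe_finset, card_powersetCard, card_univ, card_EE]
  have hT : (0:ℝ) < ((n.choose 2).choose m : ℕ) := by
    exact_mod_cast Nat.choose_pos (by omega)
  rw [le_div_iff₀ hT]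
  set Good := (powersetCard m (univ : Finset (EE n))).filter (fun s => c * 2 ^ m ≤ (numUnique (ofF s) : ℝ)) with hGood
  set Bad := (powersetCard m (univ : Finset (EE n))).filter (fun s => ¬ c * 2 ^ m ≤ (numUnique (ofF s) : ℝ)) with hBad
  have hsum : (Good.card : ℝ) + Bad.card = ((n.choose 2).choose m : ℕ) := by
    have := card_filter_add_card_filter_not (s := powersetCard m (univ : Finset (EE n))) (fun s => c * 2 ^ m ≤ (numUnique (ofF s) : ℝ))
    rw [card_powersetCard, card_univ, card_EE] at this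
    rw [hGood, hBad, ← Nat.cast_add, this]
  have htw := total_weight t hN ht
  rw [← hmdef] at htw
  have hbad : (Bad.card : ℝ) * ((1 - c) * 2^m) ≤ ∑ s ∈ powersetCard m (univ : Finset (EE n)),
        ((2:ℝ)^m - numUnique (ofF s)) := by
    calc (Bad.card : ℝ) * ((1 - c) * 2^m) = ∑ s ∈ Bad, ((1-c) * 2^m) := by rw [sum_const, nsmul_eq_mul]
      _ ≤ ∑ s ∈ Bad, ((2:ℝ)^m - numUnique (ofF s)) := by
          apply sum_le_sum
          intro s hs
          rw [hBad, mem_filter] at hs
          have := hs.2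
          push Not at this
          nlinarith
      _ ≤ _ := by
          apply sum_le_sum_of_subset_of_nonneg (filter_subset _ _)
          intro s hs _
          rw [mem_powersetCard] at hs
          have := numUnique_le (ofF s)
          rw [toF_ofF, hs.2] at this
          linarith
  have hsymm : (n.choose 2).choose t = (n.choose 2).choose m := by
    rw [hmdef, Nat.choose_symm ht]
  rw [hsymm] at htw
  have h1c : 0 < 1 - c := by linarith
  have h2m : (0:ℝ) < 2^m := by positivity
  have hfin : (Bad.card : ℝ) ≤ (1 - c)⁻¹ * (∑ m ∈ Icc 2 n, (n.descFactorial m : ℝ) * wtg n m t) * ((n.choose 2).choose m : ℕ) := by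
    have h := hbad.trans htw
    rw [inv_mul_eq_div, div_mul_eq_mul_div, le_div_iff₀ h1c]
    have h' : ((Bad.card : ℝ) * (1 - c)) * 2^m ≤ ((∑ m ∈ Icc 2 n, (n.descFactorial m : ℝ) * wtg n m t) * ((n.choose 2).choose m : ℕ)) * 2^m := by
      calc ((Bad.card : ℝ) * (1 - c)) * 2^m = (Bad.card : ℝ) * ((1 - c) * 2^m) := by ring
        _ ≤ _ := h
        _ = _ := by ring
    exact le_of_mul_le_mul_right h' h2m
  linarith


end Pool.Agent.Y458.US
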